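import Pool.Agent.helper58.CRO.SpecJ

set_option autoImplicit false

open scoped Manifold ContDiff Topology ENNReal
open MeasureTheory Set

noncomputable section

namespace Pool.Agent.CRO

theorem JB1 : JB1_stmt := by
  intro n hn Ω l a hΩ hl ha ha1
  obtain ⟨m, rfl⟩ : ∃ m, n = m + 2 := ⟨n - 2, by omega⟩
  have hin : ∀ α : ℝ, 0 < Ω ^ 2 * Real.cos α ^ 2 + l ^ 2 * Real.sin α ^ 2 := by
    intro α
    have h1 := Real.sin_sq_add_cos_sq α
    have hΩ2 : 0 < Ω ^ 2 := by positivity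
    have hl2 : 0 < l ^ 2 := by positivity
    rcases (sq_nonneg (Real.sin α)).lt_or_eq with h | h
    · have i1 : 0 < l ^ 2 * Real.sin α ^ 2 := mul_pos hl2 h
      have i2 : 0 ≤ Ω ^ 2 * Real.cos α ^ 2 := by positivity
      linarith
    · have h3 : Real.cos α ^ 2 = 1 := by linarith
      rw [h3, ← h]
      linarith
  have hW : ∀ α : ℝ, 0 < Wf Ω α l := fun α => Real.sqrt_pos.2 (hin α)
  have hW2 : ∀ α : ℝ, Wf Ω α l ^ 2 = Ω ^ 2 * Real.cos α ^ 2 + l ^ 2 * Real.sin α ^ 2 :=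
    fun α => Real.sq_sqrt (hin α).le
  have hWd : ∀ α : ℝ, HasDerivAt (fun α => Wf Ω α l)
      ((l ^ 2 - Ω ^ 2) * Real.sin α * Real.cos α / Wf Ω α l) α := by
    intro α
    have h1 : HasDerivAt (fun α => Ω ^ 2 * Real.cos α ^ 2 + l ^ 2 * Real.sin α ^ 2)
        (Ω ^ 2 * (2 * Real.cos α * (-Real.sin α)) + l ^ 2 * (2 * Real.sin α * Real.cos α)) α := by
      have hc := ((Real.hasDerivAt_cos α).pow 2).const_mul (Ω ^ 2)
      have hs := ((Real.hasDerivAt_sin α).pow 2).const_mul (l ^ 2)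
      refine (hc.add hs).congr_deriv ?_
      simp
    have h2 := h1.sqrt (hin α).ne'
    have e : (Ω ^ 2 * (2 * Real.cos α * (-Real.sin α)) + l ^ 2 * (2 * Real.sin α * Real.cos α)) /
        (2 * Real.sqrt (Ω ^ 2 * Real.cos α ^ 2 + l ^ 2 * Real.sin α ^ 2))
        = (l ^ 2 - Ω ^ 2) * Real.sin α * Real.cos α / Wf Ω α l := by
      have hw := hW α
      unfold Wf at hw ⊢
      field_simp
      ring
    rw [e] at h2
    exact h2
  have hcont : Continuous (fun α => Wf Ω α l) := by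
    rw [continuous_iff_continuousAt]
    intro α
    exact (hWd α).continuousAt
  have hF : ∀ α : ℝ, HasDerivAt (fun α => (l * Real.sin α / Wf Ω α l) ^ (m + 2 - 1))
      ((((m + 2 : ℕ) : ℝ) - 1) * Real.sin α ^ (m + 2 - 2) * Real.cos α * Ω ^ 2 *
        l ^ (m + 2 - 1) / Wf Ω α l ^ (m + 2 + 1)) α := by
    intro α
    have h1 : HasDerivAt (fun α => l * Real.sin α / Wf Ω α l)
        ((l * Real.cos α * Wf Ω α l - l * Real.sin α *
          ((l ^ 2 - Ω ^ 2) * Real.sin α * Real.cos α / Wf Ω α l)) / Wf Ω α l ^ 2) α :=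
      ((Real.hasDerivAt_sin α).const_mul l).div (hWd α) (hW α).ne'
    have h2 := h1.pow (m + 1)
    have e1 : m + 2 - 1 = m + 1 := rfl
    have e2 : m + 2 - 2 = m := rfl
    have e3 : m + 1 - 1 = m := rfl
    rw [e3] at h2
    rw [e1, e2]
    have e4 : (l * Real.cos α * Wf Ω α l - l * Real.sin α *
          ((l ^ 2 - Ω ^ 2) * Real.sin α * Real.cos α / Wf Ω α l)) / Wf Ω α l ^ 2
        = l * Ω ^ 2 * Real.cos α / Wf Ω α l ^ 3 := by
      have hw := hW α
      have hw2 := hW2 α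
      have h3 := Real.sin_sq_add_cos_sq α
      have hs : Real.sin α ^ 2 = 1 - Real.cos α ^ 2 := by linarith
      obtain ⟨w, hwd⟩ : ∃ w : ℝ, w = Wf Ω α l := ⟨_, rfl⟩
      rw [← hwd] at hw hw2 ⊢
      have e5 : l * Real.cos α * w - l * Real.sin α *
          ((l ^ 2 - Ω ^ 2) * Real.sin α * Real.cos α / w)
          = l * Real.cos α * (w ^ 2 - (l ^ 2 - Ω ^ 2) * Real.sin α ^ 2) / w := by
        field_simp
      have e6 : w ^ 2 - (l ^ 2 - Ω ^ 2) * Real.sin α ^ 2 = Ω ^ 2 := by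
        rw [hw2, hs]
        ring
      rw [e5, e6]
      field_simp
    rw [e4] at h2
    have e7 : (((m + 2 : ℕ) : ℝ) - 1) * Real.sin α ^ m * Real.cos α * Ω ^ 2 *
        l ^ (m + 1) / Wf Ω α l ^ (m + 2 + 1)
        = ((m + 1 : ℕ) : ℝ) * (l * Real.sin α / Wf Ω α l) ^ m *
          (l * Ω ^ 2 * Real.cos α / Wf Ω α l ^ 3) := by
      have hw := hW α
      push_cast
      rw [div_pow, mul_pow]
      field_simp
      ring
    rw [e7]
    exact h2
  have hc : Continuous (fun α : ℝ => (((m + 2 : ℕ) : ℝ) - 1) * Real.sin α ^ (m + 2 - 2) *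
      Real.cos α * Ω ^ 2 * l ^ (m + 2 - 1) / Wf Ω α l ^ (m + 2 + 1)) := by
    refine Continuous.div ?_ (hcont.pow _) (fun α => (pow_pos (hW α) _).ne')
    exact (((continuous_const.mul (Real.continuous_sin.pow _)).mul Real.continuous_cos).mul
      continuous_const).mul continuous_const
  rw [intervalIntegral.integral_eq_sub_of_hasDerivAt (fun α _ => hF α) (hc.intervalIntegrable _ _)]
  simp

end Pool.Agent.CRO
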