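import Pool.Agent.helper58.CRO.SpecJ

set_option autoImplicit false

open scoped Manifold ContDiff Topology ENNReal
open MeasureTheory Set

noncomputable section

namespace Pool.Agent.CRO

theorem JCB_int (k : ℕ) (a b : ℝ) :
    IntervalIntegrable (fun t => Real.sin t ^ k) volume a b :=
  (Real.continuous_sin.pow k).intervalIntegrable a b

theorem JCB : JCB_stmt := by
  intro n hn Y φ1 φ2 A g hY h0 h12 h2 hg hg0 hA
  obtain ⟨m, rfl⟩ : ∃ m, n = m + 2 := ⟨n - 2, by omega⟩
  have e1 : m + 2 - 1 = m + 1 := rfl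
  have e2 : m + 2 - 2 = m := rfl
  rw [e1] at hA ⊢
  rw [e2]
  have hsin0 : ∀ t ∈ Icc φ1 φ2, 0 ≤ Real.sin t := fun t ht =>
    Real.sin_nonneg_of_nonneg_of_le_pi (h0.trans ht.1) (by linarith [ht.2, Real.pi_pos])
  have hcos0 : ∀ t ∈ Icc φ1 φ2, 0 ≤ Real.cos t := fun t ht =>
    Real.cos_nonneg_of_neg_pi_div_two_le_of_le (by linarith [ht.1, Real.pi_pos]) (ht.2.trans h2)
  have hY1 : (0 : ℝ) < Y * (m + 1) := by positivity
  have hd : ∀ t : ℝ, HasDerivAt (fun t => Y * Real.sin t ^ (m + 1))
      (Y * (m + 1) * (Real.sin t ^ m * Real.cos t)) t := by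
    intro t
    have h := ((Real.hasDerivAt_sin t).pow (m + 1)).const_mul Y
    refine h.congr_deriv ?_
    push_cast
    ring
  have hmono : MonotoneOn (fun t => Y * Real.sin t ^ (m + 1)) (Icc φ1 φ2) := by
    intro s hs t ht hst
    have h1 : Real.sin s ≤ Real.sin t :=
      Real.sin_le_sin_of_le_of_le_pi_div_two (by linarith [hs.1, Real.pi_pos])
        (ht.2.trans h2) hst
    exact mul_le_mul_of_nonneg_left (pow_le_pow_left₀ (hsin0 s hs) h1 _) hY.le
  have hGanti : AntitoneOn (fun t => g (Y * Real.sin t ^ (m + 1))) (Icc φ1 φ2) := by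
    intro s hs t ht hst
    exact hg (hmono hs ht hst)
  have hGint : IntervalIntegrable (fun t => g (Y * Real.sin t ^ (m + 1))) volume φ1 φ2 := by
    apply AntitoneOn.intervalIntegrable
    rw [uIcc_of_le h12]
    exact hGanti
  have hGsin : IntervalIntegrable (fun t => g (Y * Real.sin t ^ (m + 1)) * Real.sin t ^ m)
      volume φ1 φ2 := hGint.mul_continuousOn (Real.continuous_sin.pow m).continuousOn
  have hGsc : IntervalIntegrable
      (fun t => g (Y * Real.sin t ^ (m + 1)) * (Real.sin t ^ m * Real.cos t)) volume φ1 φ2 :=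
    hGint.mul_continuousOn ((Real.continuous_sin.pow m).mul Real.continuous_cos).continuousOn
  have hscint : IntervalIntegrable (fun t => Real.sin t ^ m * Real.cos t) volume φ1 φ2 :=
    ((Real.continuous_sin.pow m).mul Real.continuous_cos).intervalIntegrable _ _
  -- change of variables
  have hcv : ∫ y in (Y * Real.sin φ1 ^ (m + 1))..(Y * Real.sin φ2 ^ (m + 1)), g y =
      Y * (m + 1) * ∫ t in φ1..φ2, g (Y * Real.sin t ^ (m + 1)) *
        (Real.sin t ^ m * Real.cos t) := by
    have h1 := integral_Icc_deriv_smul_of_deriv_nonneg (a := φ1) (b := φ2) (g := g)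
      (f := fun t => Y * Real.sin t ^ (m + 1))
      (f' := fun t => Y * (m + 1) * (Real.sin t ^ m * Real.cos t))
      (by
        intro t _
        exact (hd t).continuousAt.continuousWithinAt)
      (fun t _ => hd t)
      (by
        intro t ht
        have i1 := hsin0 t ⟨ht.1.le, ht.2.le⟩
        have i2 := hcos0 t ⟨ht.1.le, ht.2.le⟩
        show 0 ≤ Y * (m + 1) * (Real.sin t ^ m * Real.cos t)
        positivity) h12
    have hle : Y * Real.sin φ1 ^ (m + 1) ≤ Y * Real.sin φ2 ^ (m + 1) :=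
      hmono ⟨le_refl _, h12⟩ ⟨h12, le_refl _⟩ h12
    rw [intervalIntegral.integral_of_le hle, ← integral_Icc_eq_integral_Ioc, ← h1,
      integral_Icc_eq_integral_Ioc, ← intervalIntegral.integral_of_le h12,
      ← intervalIntegral.integral_const_mul]
    apply intervalIntegral.integral_congr
    intro t _
    simp only [smul_eq_mul]
    ring
  have hsc : ∫ t in φ1..φ2, Real.sin t ^ m * Real.cos t
      = (Real.sin φ2 ^ (m + 1) - Real.sin φ1 ^ (m + 1)) / (m + 1) := by
    have h1 : ∀ t ∈ uIcc φ1 φ2, HasDerivAt (fun t => Real.sin t ^ (m + 1) / ((m : ℝ) + 1))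
        (Real.sin t ^ m * Real.cos t) t := by
      intro t _
      have h := ((Real.hasDerivAt_sin t).pow (m + 1)).div_const ((m : ℝ) + 1)
      refine h.congr_deriv ?_
      push_cast
      field_simp
    rw [intervalIntegral.integral_eq_sub_of_hasDerivAt h1 hscint]
    ring
  rcases h12.eq_or_lt with heq | hlt
  · rw [heq]
    simp
  have hSlt : Real.sin φ1 < Real.sin φ2 :=
    Real.sin_lt_sin_of_lt_of_le_pi_div_two (by linarith [Real.pi_pos]) h2 hlt
  have hSS : Real.sin φ1 ^ (m + 1) < Real.sin φ2 ^ (m + 1) :=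
    pow_lt_pow_left₀ hSlt (hsin0 φ1 ⟨le_refl _, h12⟩) (by omega)
  obtain ⟨D, hD⟩ : ∃ D : ℝ, D = ∫ t in φ1..φ2, Real.sin t ^ m * Real.cos t := ⟨_, rfl⟩
  have hDpos : 0 < D := by
    rw [hD, hsc]
    exact div_pos (by linarith) (by positivity)
  have hDeq : Y * Real.sin φ2 ^ (m + 1) - Y * Real.sin φ1 ^ (m + 1) = Y * (m + 1) * D := by
    rw [hD, hsc]
    field_simp
  have hFP : FPc (m + 2) φ2 - FPc (m + 2) φ1 = ∫ t in φ1..φ2, Real.sin t ^ m := by
    unfold FPc
    have := intervalIntegral.integral_add_adjacent_intervals (JCB_int m 0 φ1) (JCB_int m φ1 φ2)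
    rw [show m + 2 - 2 = m from rfl]
    linarith
  rw [hFP]
  obtain ⟨I, hI⟩ : ∃ I : ℝ, I = ∫ t in φ1..φ2, Real.sin t ^ m := ⟨_, rfl⟩
  have hDI : D ≤ I := by
    rw [hD, hI]
    apply intervalIntegral.integral_mono_on h12 hscint (JCB_int m φ1 φ2)
    intro t ht
    have i1 : 0 ≤ Real.sin t ^ m := pow_nonneg (hsin0 t ht) _
    have := mul_le_mul_of_nonneg_left (Real.cos_le_one t) i1
    linarith
  have hIpos : 0 < I := lt_of_lt_of_le hDpos hDI
  rw [← hI]
  obtain ⟨w, hw⟩ : ∃ w : ℝ, w = I / D := ⟨_, rfl⟩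
  have hw1 : 1 ≤ w := by
    rw [hw, le_div_iff₀ hDpos]
    linarith
  have hw0 : 0 < w := by linarith
  have hwD : w * D = I := by
    rw [hw]
    field_simp
  obtain ⟨ψ, hψ⟩ : ∃ ψ : ℝ, ψ = Real.arccos (1 / w) := ⟨_, rfl⟩
  have hinv0 : 0 < 1 / w := by positivity
  have hinv1 : 1 / w ≤ 1 := by
    rw [div_le_one hw0]
    exact hw1
  have hψc : Real.cos ψ = 1 / w := by
    rw [hψ]
    exact Real.cos_arccos (by linarith) hinv1
  have hψ0 : 0 ≤ ψ := by
    rw [hψ]
    exact Real.arccos_nonneg _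
  have hψ1 : ψ ≤ Real.pi / 2 := by
    rw [hψ, Real.arccos_le_pi_div_two]
    exact hinv0.le
  -- pointwise inequality
  have hpt : ∀ t ∈ Icc φ1 φ2, g (Y * Real.sin t ^ (m + 1)) *
      (Real.sin t ^ m - w * (Real.sin t ^ m * Real.cos t)) ≤
      g (Y * Real.sin ψ ^ (m + 1)) * (Real.sin t ^ m - w * (Real.sin t ^ m * Real.cos t)) := by
    intro t ht
    have hs : 0 ≤ Real.sin t ^ m := pow_nonneg (hsin0 t ht) _
    have ht0 : 0 ≤ t := h0.trans ht.1
    have ht1 : t ≤ Real.pi / 2 := ht.2.trans h2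
    have e3 : Real.sin t ^ m - w * (Real.sin t ^ m * Real.cos t)
        = Real.sin t ^ m * (1 - w * Real.cos t) := by ring
    rw [e3]
    rcases le_total t ψ with hc | hc
    · have hcc : 1 / w ≤ Real.cos t := by
        rw [← hψc]
        exact Real.cos_le_cos_of_nonneg_of_le_pi ht0 (by linarith [Real.pi_pos]) hc
      have h3 : 1 ≤ w * Real.cos t := by
        have := mul_le_mul_of_nonneg_left hcc hw0.le
        have e4 : w * (1 / w) = 1 := by field_simp
        linarith
      have h4 : Real.sin t ≤ Real.sin ψ :=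
        Real.sin_le_sin_of_le_of_le_pi_div_two (by linarith [Real.pi_pos]) hψ1 hc
      have h5 : g (Y * Real.sin ψ ^ (m + 1)) ≤ g (Y * Real.sin t ^ (m + 1)) :=
        hg (mul_le_mul_of_nonneg_left (pow_le_pow_left₀ (hsin0 t ht) h4 _) hY.le)
      have h6 : Real.sin t ^ m * (1 - w * Real.cos t) ≤ 0 :=
        mul_nonpos_of_nonneg_of_nonpos hs (by linarith)
      exact mul_le_mul_of_nonpos_right h5 h6
    · have hcc : Real.cos t ≤ 1 / w := by
        rw [← hψc]
        exact Real.cos_le_cos_of_nonneg_of_le_pi hψ0 (by linarith [Real.pi_pos]) hc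
      have h3 : w * Real.cos t ≤ 1 := by
        have := mul_le_mul_of_nonneg_left hcc hw0.le
        have e4 : w * (1 / w) = 1 := by field_simp
        linarith
      have h4 : Real.sin ψ ≤ Real.sin t :=
        Real.sin_le_sin_of_le_of_le_pi_div_two (by linarith [Real.pi_pos]) ht1 hc
      have hψs : 0 ≤ Real.sin ψ :=
        Real.sin_nonneg_of_nonneg_of_le_pi hψ0 (by linarith [Real.pi_pos])
      have h5 : g (Y * Real.sin t ^ (m + 1)) ≤ g (Y * Real.sin ψ ^ (m + 1)) :=
        hg (mul_le_mul_of_nonneg_left (pow_le_pow_left₀ hψs h4 _) hY.le)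
      exact mul_le_mul_of_nonneg_right h5 (mul_nonneg hs (by linarith))
  have hint1 : IntervalIntegrable (fun t => g (Y * Real.sin t ^ (m + 1)) *
      (Real.sin t ^ m - w * (Real.sin t ^ m * Real.cos t))) volume φ1 φ2 :=
    hGint.mul_continuousOn ((Real.continuous_sin.pow m).sub (continuous_const.mul
      ((Real.continuous_sin.pow m).mul Real.continuous_cos))).continuousOn
  have hint2 : IntervalIntegrable (fun t => g (Y * Real.sin ψ ^ (m + 1)) *
      (Real.sin t ^ m - w * (Real.sin t ^ m * Real.cos t))) volume φ1 φ2 :=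
    (continuous_const.mul ((Real.continuous_sin.pow m).sub (continuous_const.mul
      ((Real.continuous_sin.pow m).mul Real.continuous_cos)))).intervalIntegrable _ _
  have hmain := intervalIntegral.integral_mono_on h12 hint1 hint2 hpt
  have hR : ∫ t in φ1..φ2, g (Y * Real.sin ψ ^ (m + 1)) *
      (Real.sin t ^ m - w * (Real.sin t ^ m * Real.cos t)) = 0 := by
    rw [intervalIntegral.integral_const_mul, intervalIntegral.integral_sub (JCB_int m φ1 φ2)
      (hscint.const_mul w), intervalIntegral.integral_const_mul, ← hI, ← hD, hwD]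
    ring
  have hLft : ∫ t in φ1..φ2, g (Y * Real.sin t ^ (m + 1)) *
      (Real.sin t ^ m - w * (Real.sin t ^ m * Real.cos t))
      = (∫ t in φ1..φ2, g (Y * Real.sin t ^ (m + 1)) * Real.sin t ^ m)
        - w * ∫ t in φ1..φ2, g (Y * Real.sin t ^ (m + 1)) * (Real.sin t ^ m * Real.cos t) := by
    rw [← intervalIntegral.integral_const_mul, ← intervalIntegral.integral_sub hGsin
      (hGsc.const_mul w)]
    apply intervalIntegral.integral_congr
    intro t _
    simp only
    ring
  rw [hR, hLft] at hmain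
  rw [hcv, hDeq] at hA
  have hAD : A * D = ∫ t in φ1..φ2, g (Y * Real.sin t ^ (m + 1)) *
      (Real.sin t ^ m * Real.cos t) := by
    have h5 : Y * (m + 1) * (A * D) = Y * (m + 1) *
      ∫ t in φ1..φ2, g (Y * Real.sin t ^ (m + 1)) * (Real.sin t ^ m * Real.cos t) := by
      rw [← hA]
      ring
    exact mul_left_cancel₀ hY1.ne' h5
  rw [← hAD] at hmain
  have h6 : w * (A * D) = A * I := by
    rw [← hwD]
    ring
  rw [h6] at hmain
  linarith

end Pool.Agent.CRO
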