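import Pool.Agent.helper58.CRO.SpecJ

set_option autoImplicit false

open scoped Manifold ContDiff Topology ENNReal
open MeasureTheory Set

noncomputable section

namespace Pool.Agent.CRO

/-- The polynomial `2 y L y - y L y ^ 2`, `L y = y (2/3 + (2/15) y^2 + (1/5) y^4)`, over `y`. -/
def JL3_h (y : ℝ) : ℝ :=
  2 * (y * (2 / 3 + 2 / 15 * y ^ 2 + 1 / 5 * y ^ 4)) -
    (y * (2 / 3 + 2 / 15 * y ^ 2 + 1 / 5 * y ^ 4)) ^ 2

/-- Antiderivative of `y * h y`. -/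
def JL3_P (y : ℝ) : ℝ :=
  4 / 9 * y ^ 3 + 4 / 75 * y ^ 5 + 2 / 35 * y ^ 7 - (1 / 9 * y ^ 4 + 4 / 135 * y ^ 6 +
    8 / 225 * y ^ 8 + 2 / 375 * y ^ 10 + 1 / 300 * y ^ 12)

theorem JL3_deriv (y : ℝ) : HasDerivAt JL3_P (y * JL3_h y) y := by
  unfold JL3_P JL3_h
  have h3 := (hasDerivAt_pow 3 y).const_mul (4 / 9)
  have h5 := (hasDerivAt_pow 5 y).const_mul (4 / 75)
  have h7 := (hasDerivAt_pow 7 y).const_mul (2 / 35)
  have h4 := (hasDerivAt_pow 4 y).const_mul (1 / 9)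
  have h6 := (hasDerivAt_pow 6 y).const_mul (4 / 135)
  have h8 := (hasDerivAt_pow 8 y).const_mul (8 / 225)
  have h10 := (hasDerivAt_pow 10 y).const_mul (2 / 375)
  have h12 := (hasDerivAt_pow 12 y).const_mul (1 / 300)
  refine (((h3.add h5).add h7).sub ((((h4.add h6).add h8).add h10).add h12)).congr_deriv ?_
  push_cast
  ring

theorem JL3 (h1 : JYH_stmt) : JL3_stmt := by
  have hyh : ∀ x : ℝ, yh 3 x = Real.sqrt (1 - x ^ 2) *
      (2 / 3 + 2 / 15 * (1 - x ^ 2) + 1 / 5 * (1 - x ^ 2) ^ 2) := by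
    intro x
    unfold yh
    push_cast
    norm_num
  have hint : ∀ x ∈ uIcc (0 : ℝ) 1, x ^ (3 - 2) *
      (1 - (1 - yh 3 x) ^ ((((3 : ℕ) : ℝ) + 1) / (((3 : ℕ) : ℝ) - 1)))
      = x * JL3_h (Real.sqrt (1 - x ^ 2)) := by
    intro x hx
    rw [uIcc_of_le zero_le_one] at hx
    have hx2 : 0 ≤ 1 - x ^ 2 := by
      have i1 := hx.1
      have i2 := hx.2
      nlinarith
    have e1 : (((3 : ℕ) : ℝ) + 1) / (((3 : ℕ) : ℝ) - 1) = ((2 : ℕ) : ℝ) := by norm_num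
    rw [e1, Real.rpow_natCast, hyh x]
    obtain ⟨y, hy⟩ : ∃ y : ℝ, y = Real.sqrt (1 - x ^ 2) := ⟨_, rfl⟩
    have hy2 : 1 - x ^ 2 = y ^ 2 := by
      rw [hy, Real.sq_sqrt hx2]
    rw [← hy, hy2]
    unfold JL3_h
    ring
  have hll : ll 3 = ∫ x in (0 : ℝ)..1, x * JL3_h (Real.sqrt (1 - x ^ 2)) := by
    unfold ll
    exact intervalIntegral.integral_congr hint
  have hcs : Continuous (fun x : ℝ => Real.sqrt (1 - x ^ 2)) :=
    (continuous_const.sub (continuous_id.pow 2)).sqrt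
  have hch : Continuous JL3_h := by
    unfold JL3_h
    fun_prop
  have hcP : Continuous JL3_P := by
    unfold JL3_P
    fun_prop
  have hcont : Continuous (fun x : ℝ => x * JL3_h (Real.sqrt (1 - x ^ 2))) :=
    continuous_id.mul (hch.comp hcs)
  have hF : ∀ x ∈ Ioo (0 : ℝ) 1, HasDerivAt (fun x => -JL3_P (Real.sqrt (1 - x ^ 2)))
      (x * JL3_h (Real.sqrt (1 - x ^ 2))) x := by
    intro x hx
    have hx2 : 0 < 1 - x ^ 2 := by
      have i1 := hx.1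
      have i2 := hx.2
      nlinarith
    have hs : 0 < Real.sqrt (1 - x ^ 2) := Real.sqrt_pos.2 hx2
    have hd1 : HasDerivAt (fun x : ℝ => 1 - x ^ 2) (-(2 * x)) x := by
      have := (hasDerivAt_pow 2 x).const_sub 1
      refine this.congr_deriv ?_
      push_cast
      ring
    have hd2 := hd1.sqrt hx2.ne'
    have hd3 := ((JL3_deriv (Real.sqrt (1 - x ^ 2))).comp x hd2).neg
    refine hd3.congr_deriv ?_
    field_simp
  have hcalc : ∫ x in (0 : ℝ)..1, x * JL3_h (Real.sqrt (1 - x ^ 2))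
      = -JL3_P (Real.sqrt (1 - 1 ^ 2)) - -JL3_P (Real.sqrt (1 - 0 ^ 2)) :=
    intervalIntegral.integral_eq_sub_of_hasDerivAt_of_le zero_le_one
      ((hcP.comp hcs).neg.continuousOn) hF (hcont.intervalIntegrable _ _)
  have e0 : Real.sqrt (1 - (1 : ℝ) ^ 2) = 0 := by norm_num
  have e1 : Real.sqrt (1 - (0 : ℝ) ^ 2) = 1 := by norm_num
  unfold JL3_stmt
  rw [hll, hcalc, e0, e1]
  unfold JL3_P
  norm_num

end Pool.Agent.CRO
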