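import Pool.Agent.helper58.CRO.SpecJ

set_option autoImplicit false

open scoped Manifold ContDiff Topology ENNReal
open MeasureTheory Set

noncomputable section

namespace Pool.Agent.CRO

theorem JYH_sin_nonneg {t : ℝ} (h0 : 0 ≤ t) (h1 : t ≤ Real.pi / 2) : 0 ≤ Real.sin t :=
  Real.sin_nonneg_of_nonneg_of_le_pi h0 (by linarith [Real.pi_pos])

theorem JYH_int (k : ℕ) (a b : ℝ) :
    IntervalIntegrable (fun t => Real.sin t ^ k) volume a b :=
  (Real.continuous_sin.pow k).intervalIntegrable a b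

theorem JYH : JYH_stmt := by
  intro n hn
  have hn0 : (2 : ℝ) ≤ n := by exact_mod_cast hn
  have hnp : (0 : ℝ) < n := by linarith
  have hbig : ∀ x : ℝ, 1 ≤ x → yh n x = 0 := by
    intro x hx
    unfold yh
    have : Real.sqrt (1 - x ^ 2) = 0 := Real.sqrt_eq_zero_of_nonpos (by nlinarith)
    rw [this, zero_mul]
  have hle : ∀ x ∈ Icc (0 : ℝ) 1, yh n x ≤ Real.sqrt (1 - x ^ 2) * (1 - x ^ 2 / n) := by
    intro x hx
    have hx2 : x ^ 2 ≤ 1 := by
      have := hx.1
      have := hx.2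
      nlinarith
    have hx20 : 0 ≤ x ^ 2 := by positivity
    unfold yh
    apply mul_le_mul_of_nonneg_left _ (Real.sqrt_nonneg _)
    obtain ⟨d, hd⟩ : ∃ d : ℝ, d = 1 - x ^ 2 := ⟨_, rfl⟩
    rw [← hd]
    have hx2d : x ^ 2 = 1 - d := by linarith
    rw [hx2d]
    have hd0 : 0 ≤ d := by linarith
    have hd1 : d ≤ 1 := by linarith
    have hdd : d ^ 2 ≤ d := by nlinarith
    have e1 : ((n : ℝ) - 1) / n + ((n : ℝ) - 1) / (n * (n + 2)) * d + 3 / (n * ((n : ℝ) + 2)) * d ^ 2
        = (((n : ℝ) - 1) * (n + 2) + (n - 1) * d + 3 * d ^ 2) / (n * (n + 2)) := by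
      field_simp
    have e2 : 1 - (1 - d) / (n : ℝ) = (((n : ℝ) - 1) * (n + 2) + (n + 2) * d) / (n * (n + 2)) := by
      field_simp
      ring
    rw [e1, e2]
    apply div_le_div_of_nonneg_right _ (by positivity)
    linarith
  refine ⟨?_, hbig, hle, ?_⟩
  · intro x hx
    rcases le_total 1 x with h1 | h1
    · rw [hbig x h1]
      constructor
      · exact le_refl _
      · norm_num
    · have hx2 : x ^ 2 ≤ 1 := by nlinarith
      have hx20 : 0 < x ^ 2 := by positivity
      constructor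
      · unfold yh
        have hd : 0 ≤ 1 - x ^ 2 := by linarith
        have h2 : 0 ≤ (n : ℝ) - 1 := by linarith
        apply mul_nonneg (Real.sqrt_nonneg _)
        have i1 : 0 ≤ ((n : ℝ) - 1) / n := div_nonneg h2 hnp.le
        have i2 : 0 ≤ ((n : ℝ) - 1) / (n * (n + 2)) * (1 - x ^ 2) :=
          mul_nonneg (div_nonneg h2 (by positivity)) hd
        have i3 : 0 ≤ 3 / (n * ((n : ℝ) + 2)) * (1 - x ^ 2) ^ 2 := by positivity
        linarith
      · refine (hle x ⟨hx.le, h1⟩).trans_lt ?_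
        have hs1 : Real.sqrt (1 - x ^ 2) < 1 := by
          rw [Real.sqrt_lt' one_pos]
          linarith
        have hq : 1 - x ^ 2 / n ≤ 1 := by
          have : 0 ≤ x ^ 2 / n := by positivity
          linarith
        have hs0 := Real.sqrt_nonneg (1 - x ^ 2)
        have := mul_le_mul_of_nonneg_left hq hs0
        linarith
  · intro α hα x hx
    unfold tr1
    obtain ⟨φ, hφ⟩ : ∃ φ : ℝ, φ = Real.arccos (Real.cos α * Real.sqrt (1 - x ^ 2)) := ⟨_, rfl⟩
    rw [← hφ]
    have hcos : 0 ≤ Real.cos α :=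
      Real.cos_nonneg_of_neg_pi_div_two_le_of_le (by linarith [hα.1, Real.pi_pos]) hα.2
    have hφ0 : 0 ≤ φ := by
      rw [hφ]
      exact Real.arccos_nonneg _
    have hφ1 : φ ≤ Real.pi / 2 := by
      rw [hφ, Real.arccos_le_pi_div_two]
      positivity
    have hF0 : 0 ≤ FPc n φ := by
      unfold FPc
      apply intervalIntegral.integral_nonneg hφ0
      intro t ht
      exact pow_nonneg (JYH_sin_nonneg ht.1 (ht.2.trans hφ1)) _
    have hF1 : FPc n φ ≤ cW n := by
      unfold FPc cW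
      have h1 := intervalIntegral.integral_add_adjacent_intervals (JYH_int (n - 2) 0 φ)
        (JYH_int (n - 2) φ (Real.pi / 2))
      have h2 : 0 ≤ ∫ t in φ..(Real.pi / 2), Real.sin t ^ (n - 2) := by
        apply intervalIntegral.integral_nonneg hφ1
        intro t ht
        exact pow_nonneg (JYH_sin_nonneg (hφ0.trans ht.1) ht.2) _
      linarith
    have hc0 : 0 ≤ cW n := hF0.trans hF1
    exact ⟨div_nonneg hF0 hc0, div_le_one_of_le₀ hF1 hc0⟩

end Pool.Agent.CRO
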